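import Pool.Agent.N115.IM.Stm

/-!
The algebraic core for the images of bounded degree: the forms of `Pool.Agent.Y190.BV` vanish to a
high order (project IM of helper115, subtask 850). `ge_phi'` and `core_images` are modifications of
the proofs of `Pool.Agent.Y190.BV.ge_phi` and `Pool.Agent.Y190.BV.core'`.
-/

set_option autoImplicit false

open FF Pool.Agent.W603.LV Pool.Agent.W602.GT Pool.Agent.Y190.BV Cardinal

namespace Pool.Agent.N895.IM

variable {k K L : Type} [Field k] [Field K] [Field L] [Algebra k K] [Algebra k L] [Algebra K L]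
  [IsScalarTower k K L]

variable {ι : Type} [Fintype ι] {w q d : ℕ}

variable [FiniteDimensional K L] [IsGalois K L]

/-- **The order of the forms** (stronger form of `Y190.BV.ge_phi`). -/
theorem ge_phi' {W : Place k L} {P : Place k K} {e : ℕ} (hWP : Over W P e)
    {b : Bool} (D : Fin w → Derivation k K K) (hD : ∀ i, DKind b P (D i)) (f : ℕ → K) {c0 : ℤ}
    (hf : ∀ j < d + 1, Ge P c0 (f j)) {j0 : ℕ} (hfj0 : f j0 ≠ 0) (hc0 : P.ord (f j0) = c0)
    (a : Fin q → k) (ha : Function.Injective a) (A : ℕ) (c : Fin q → ℕ) (hcA : ∀ i, c i ≤ A)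
    (h0 : ∀ i, ev K (d + 1) f (algebraMap k K (a i)) ≠ 0)
    (hram : b = true → ∀ i, P.ord (ev K (d + 1) f (algebraMap k K (a i))) = c0 ∨
      (A : ℤ) ≤ ((A : ℤ) - c i) * (P.ord (ev K (d + 1) f (algebraMap k K (a i))) - c0))
    {lead : K} (hlead : lead ≠ 0) (r : Fin d → L) (hr : Function.Injective r)
    (hroot : ∀ i, ev L (d + 1) f (r i) = 0)
    (hcoef : ∀ j, algebraMap K L (f j) = algebraMap K L lead *
      (∏ i, (Polynomial.X - Polynomial.C (r i))).coeff j)
    (J : ι → Fin w → L) (hJ : ∀ l j, ∃ i, J l j = r i)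
    (hcov : ∀ i, (∃ y : k, r i = algebraMap k L y) ∨ ∃ l j, J l j = r i)
    (hbound : A * (d + w * Fintype.card ι) < ∑ i, c i)
    (ψ : K) (hψ : Ge W (- ∑ s : L ≃ₐ[K] L, TT (W.comp (rs s)) r) (algebraMap K L ψ)) :
    Ge W ((∑ i, (c i : ℤ) - A * (d + w * Fintype.card ι) - 1) *
      ∑ s : L ≃ₐ[K] L, TT (W.comp (rs s)) r)
      (algebraMap K L (phi lead A c a J (d + 1) f ψ D)) := by
  classical
  have hroot' : ∀ l j, ev L (d + 1) f (J l j) = 0 := by
    intro l j
    obtain ⟨i, hi⟩ := hJ l j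
    rw [hi]; exact hroot i
  have hJa : ∀ l j i, J l j ≠ algebraMap k L (a i) := by
    intro l j i h
    have := hroot' l j
    rw [h, ev_const, map_eq_zero] at this
    exact h0 i this
  have hent : ∀ (s : L ≃ₐ[K] L) (l : ι) (j : Fin w), ∃ N : ℤ,
      (∀ D : Derivation k K K, DKind b P D →
        Ge (W.comp (rs s)) N (ev L (d + 1) (fun j => D (f j)) (J l j))) ∧
      (A : ℤ) * (e * c0 - d * tau (W.comp (rs s)) (J l j)) +
        ∑ i, (c i : ℤ) * vv (W.comp (rs s)) (J l j) (a i) ≤ A * N := fun s l j =>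
    entry (over_rs hWP s) f hf a ha A c hcA h0 hram (J l j) (hroot' l j)
  choose N hN1 hN2 using hent
  obtain ⟨hden0, hden⟩ := ord_den (W := W) hlead A c a J hJa
  unfold phi
  rw [map_mul, map_div₀, map_pow, map_prod]
  have h1 := ge_div ((map_ne_zero (algebraMap K L)).2 hden0) hψ
  have h2 : Ge W (∑ l, ∑ s : L ≃ₐ[K] L, ∑ j, N s l j)
      (∏ l, algebraMap K L (Algebra.norm K (mat (d + 1) f (J l) D).det)) := by
    refine Ge.prod _ _ _ fun l _ => ?_
    refine ge_norm _ fun s => ?_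
    refine ge_det _ _ _ (fun i j => N s l j) (fun i j => ?_) (fun σ => le_rfl)
    exact hN1 s l j (D i) (hD i)
  refine (h1.mul (h2.pow A)).mono ?_
  rw [hden]
  -- the main inequality
  have h3 : (A : ℤ) * ∑ l, ∑ s : L ≃ₐ[K] L, ∑ j, N s l j =
      ∑ s : L ≃ₐ[K] L, ∑ l, ∑ j, (A : ℤ) * N s l j := by
    rw [Finset.sum_comm, Finset.mul_sum]
    refine Finset.sum_congr rfl fun s _ => ?_
    rw [Finset.mul_sum]
    refine Finset.sum_congr rfl fun l _ => ?_
    rw [Finset.mul_sum]
  rw [h3]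
  have hc1 : ((A : ℤ) * (d + w * Fintype.card ι)) + 1 ≤ ∑ i, (c i : ℤ) := by
    exact_mod_cast hbound
  have hmain : ∀ s : L ≃ₐ[K] L, (∑ i, (c i : ℤ) - A * (d + w * Fintype.card ι)) *
      TT (W.comp (rs s)) r +
      ∑ l, ∑ j, ((A : ℤ) * W.ord (algebraMap K L lead) +
        ∑ i, (c i : ℤ) * (W.comp (rs s)).ord (J l j - algebraMap k L (a i))) ≤
      ∑ l, ∑ j, (A : ℤ) * N s l j := by
    intro s
    set V := W.comp (rs s) with hV
    have hVP : Over V P e := over_rs hWP s
    have hlV : V.ord (algebraMap K L lead) = W.ord (algebraMap K L lead) := by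
      rw [hVP.2, hWP.2]
    have hgc := ge_c0 hVP hfj0 hc0 r hcoef
    rw [hlV] at hgc
    have hcovV := cover_le V r hr J hcov
    have hTT := TT_nonneg V r
    have h4 : ∀ l j, (A : ℤ) * W.ord (algebraMap K L lead) +
        ∑ i, (c i : ℤ) * V.ord (J l j - algebraMap k L (a i)) +
        ((∑ i, (c i : ℤ) - A * d) * tau V (J l j) - A * TT V r) ≤ (A : ℤ) * N s l j := by
      intro l j
      have h5 := hN2 s l j
      rw [← hV] at h5
      have h6 : ∑ i, (c i : ℤ) * vv V (J l j) (a i) =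
          ∑ i, (c i : ℤ) * V.ord (J l j - algebraMap k L (a i)) +
          (∑ i, (c i : ℤ)) * tau V (J l j) := by
        unfold vv
        simp only [mul_add, Finset.sum_add_distrib, Finset.sum_mul]
      rw [h6] at h5
      have h7 : (A : ℤ) * (W.ord (algebraMap K L lead) - TT V r) ≤ A * (e * c0) :=
        mul_le_mul_of_nonneg_left hgc (by positivity)
      linarith
    have h8 := Finset.sum_le_sum fun l (_ : l ∈ Finset.univ) =>
      Finset.sum_le_sum fun j (_ : j ∈ Finset.univ) => h4 l j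
    refine le_trans ?_ h8
    have h9 : ∑ l : ι, ∑ j : Fin w, ((A : ℤ) * W.ord (algebraMap K L lead) +
        ∑ i, (c i : ℤ) * V.ord (J l j - algebraMap k L (a i)) +
        ((∑ i, (c i : ℤ) - A * d) * tau V (J l j) - A * TT V r)) =
        ∑ l : ι, ∑ j : Fin w, ((A : ℤ) * W.ord (algebraMap K L lead) +
        ∑ i, (c i : ℤ) * V.ord (J l j - algebraMap k L (a i))) +
        ((∑ i, (c i : ℤ) - A * d) * (∑ l, ∑ j, tau V (J l j)) -
          A * (w * Fintype.card ι) * TT V r) := by
      simp only [Finset.sum_add_distrib, Finset.sum_sub_distrib, Finset.mul_sum, Finset.sum_const,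
        Finset.card_univ, Fintype.card_fin, nsmul_eq_mul]
      ring
    rw [h9]
    have h10 : (∑ i, (c i : ℤ) - A * d) * TT V r ≤
        (∑ i, (c i : ℤ) - A * d) * (∑ l, ∑ j, tau V (J l j)) := by
      apply mul_le_mul_of_nonneg_left hcovV
      have : (0 : ℤ) ≤ A * (w * Fintype.card ι) := by positivity
      nlinarith
    have h11 : (∑ i, (c i : ℤ) - A * (d + w * Fintype.card ι)) * TT V r =
        (∑ i, (c i : ℤ) - A * d) * TT V r - A * (w * Fintype.card ι) * TT V r := by ring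
    rw [h11]
    linarith
  have h12 := Finset.sum_le_sum fun s (_ : s ∈ Finset.univ) => hmain s
  rw [Finset.sum_add_distrib, ← Finset.mul_sum] at h12
  linarith


/-- **The order of the forms at the places of `K`.** -/
theorem ge_phi_base [CharZero k] {P : Place k K}
    (D : Fin w → Derivation k K K) (hD : ∀ i, DerReg P (D i)) (f : ℕ → K) {c0 : ℤ}
    (hf : ∀ j < d + 1, Ge P c0 (f j)) {j0 : ℕ} (hfj0 : f j0 ≠ 0) (hc0 : P.ord (f j0) = c0)
    (a : Fin q → k) (ha : Function.Injective a) (A : ℕ) (c : Fin q → ℕ) (hcA : ∀ i, c i ≤ A)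
    (h0 : ∀ i, ev K (d + 1) f (algebraMap k K (a i)) ≠ 0)
    (hram : ∀ i, P.ord (ev K (d + 1) f (algebraMap k K (a i))) = c0 ∨
      (A : ℤ) ≤ ((A : ℤ) - c i) * (P.ord (ev K (d + 1) f (algebraMap k K (a i))) - c0))
    {lead : K} (hlead : lead ≠ 0) (r : Fin d → L) (hr : Function.Injective r)
    (hroot : ∀ i, ev L (d + 1) f (r i) = 0)
    (hcoef : ∀ j, algebraMap K L (f j) = algebraMap K L lead *
      (∏ i, (Polynomial.X - Polynomial.C (r i))).coeff j)
    (J : ι → Fin w → L) (hJ : ∀ l j, ∃ i, J l j = r i)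
    (hcov : ∀ i, (∃ y : k, r i = algebraMap k L y) ∨ ∃ l j, J l j = r i)
    (hbound : A * (d + w * Fintype.card ι) < ∑ i, c i)
    (ψ : K) (hψ : ψ = 1 ∨ ∃ (i : Fin d) (y : k), ψ = Algebra.norm K (r i - algebraMap k L y)) :
    Ge P ((∑ i, (c i : ℤ) - A * (d + w * Fintype.card ι) - 1) *
      (Module.finrank K L * (P.ord lead - c0))) (phi lead A c a J (d + 1) f ψ D) := by
  classical
  obtain ⟨S, T, _, hT, hsum⟩ := exists_places_over (K' := L) P
  have hSne : S.Nonempty := by
    by_contra hcon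
    rw [Finset.not_nonempty_iff_eq_empty] at hcon
    rw [hcon, Finset.sum_empty] at hsum
    have : 0 < Module.finrank K L := Module.finrank_pos
    omega
  obtain ⟨W, hW⟩ := hSne
  obtain ⟨e, hWP, _⟩ := hT W hW
  have hψ' : Ge W (- ∑ s : L ≃ₐ[K] L, TT (W.comp (rs s)) r) (algebraMap K L ψ) := by
    have hTT : 0 ≤ ∑ s : L ≃ₐ[K] L, TT (W.comp (rs s)) r :=
      Finset.sum_nonneg fun s _ => TT_nonneg _ r
    rcases hψ with rfl | ⟨i, y, rfl⟩
    · rw [map_one]
      exact Ge.one.mono (by omega)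
    · rw [← Finset.sum_neg_distrib]
      refine ge_norm _ fun s => ?_
      refine (ge_sub_const _ (r i) y).mono ?_
      have : tau (W.comp (rs s)) (r i) ≤ TT (W.comp (rs s)) r :=
        Finset.single_le_sum (fun j _ => tau_nonneg _ (r j)) (Finset.mem_univ i)
      omega
  have h1 := ge_phi' hWP (b := true) D hD f hf hfj0 hc0 a ha A c hcA h0 (fun _ => hram) hlead r hr
    hroot hcoef J hJ hcov hbound ψ hψ'
  have hc1 : ((A : ℤ) * (d + w * Fintype.card ι)) + 1 ≤ ∑ i, (c i : ℤ) := by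
    exact_mod_cast hbound
  have hTs : ∀ s : L ≃ₐ[K] L, (e : ℤ) * (P.ord lead - c0) ≤ TT (W.comp (rs s)) r := by
    intro s
    have hVP := over_rs hWP s
    have h2 := ge_c0 hVP hfj0 hc0 r hcoef
    rw [hVP.2] at h2
    linarith
  have hcard : Fintype.card (L ≃ₐ[K] L) = Module.finrank K L := by
    rw [← Nat.card_eq_fintype_card]
    exact IsGalois.card_aut_eq_finrank K L
  have hTsum : (Module.finrank K L : ℤ) * (e * (P.ord lead - c0)) ≤
      ∑ s : L ≃ₐ[K] L, TT (W.comp (rs s)) r := by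
    have h2 := Finset.sum_le_sum fun s (_ : s ∈ Finset.univ) => hTs s
    rw [Finset.sum_const, Finset.card_univ, hcard, nsmul_eq_mul] at h2
    exact h2
  rcases h1 with h1 | h1
  · left
    exact (map_eq_zero _).1 h1
  · right
    rw [hWP.2] at h1
    have he : (0 : ℤ) < e := by exact_mod_cast hWP.1
    have h3 : (e : ℤ) * ((∑ i, (c i : ℤ) - A * (d + w * Fintype.card ι) - 1) *
        (Module.finrank K L * (P.ord lead - c0))) ≤
        e * P.ord (phi lead A c a J (d + 1) f ψ D) := by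
      refine le_trans ?_ h1
      calc (e : ℤ) * ((∑ i, (c i : ℤ) - A * (d + w * Fintype.card ι) - 1) *
          (Module.finrank K L * (P.ord lead - c0))) =
          (∑ i, (c i : ℤ) - A * (d + w * Fintype.card ι) - 1) *
            (Module.finrank K L * (e * (P.ord lead - c0))) := by ring
        _ ≤ _ := mul_le_mul_of_nonneg_left hTsum (by linarith)
    exact le_of_mul_le_mul_left h3 he

end Pool.Agent.N895.IM
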